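import Pool.Agent.PSS.StmtsS5

/-! Squad PSS, block S5, row NQA: existence of the quotient by a central subgroup. -/

open scoped BigOperators

noncomputable section

namespace Pool.Agent.PSS.S5.H23

open Pool.Agent.PSS.S5

section

variable {F V A : Type} [Field F] [CommGroup V] [Ring A] [Algebra F A] (α : V →* A)
  (Q : Subgroup V) [Fintype Q]

theorem sig_comm (h : ∀ q ∈ Q, ∀ a, α q * a = a * α q) (a : A) :
    (∑ q : Q, α q) * a = a * ∑ q : Q, α q := by
  rw [Finset.sum_mul, Finset.mul_sum]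
  exact Finset.sum_congr rfl fun q _ => h q q.2 a

theorem sig_q (q : V) (hq : q ∈ Q) : (∑ r : Q, α r) * α q = ∑ r : Q, α r := by
  rw [Finset.sum_mul]
  have h := Fintype.sum_equiv (Equiv.mulRight (⟨q, hq⟩ : Q)) (fun r : Q => α (r : V) * α q)
    (fun r : Q => α (r : V)) (fun r => by
      show α (r : V) * α q = α ((r * ⟨q, hq⟩ : Q) : V)
      rw [← map_mul]
      rfl)
  exact h

/-- the congruence of the quotient -/
def cg (h : ∀ q ∈ Q, ∀ a, α q * a = a * α q) : RingCon A where
  r a b := (∑ q : Q, α q) * a = (∑ q : Q, α q) * b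
  iseqv := ⟨fun _ => rfl, fun h => h.symm, fun h k => h.trans k⟩
  add' := by
    intro a b c d hab hcd
    show (∑ q : Q, α q) * (a + c) = (∑ q : Q, α q) * (b + d)
    rw [mul_add, mul_add]
    exact congrArg₂ (· + ·) hab hcd
  mul' := by
    intro a b c d hab hcd
    have hab' : (∑ q : Q, α q) * a = (∑ q : Q, α q) * b := hab
    have hcd' : (∑ q : Q, α q) * c = (∑ q : Q, α q) * d := hcd
    show (∑ q : Q, α q) * (a * c) = (∑ q : Q, α q) * (b * d)
    rw [← mul_assoc, hab', sig_comm α Q h b, mul_assoc, hcd', ← mul_assoc, ← sig_comm α Q h b,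
      mul_assoc]

end

theorem nqa : NqaStmt := by
  intro F V A _ _ _ _ α Q _ h
  let c := cg α Q h
  let p : A →ₐ[F] c.Quotient := RingCon.mkₐ F c
  have hp : ∀ a b, p a = p b ↔ (∑ q : Q, α q) * a = (∑ q : Q, α q) * b := fun a b => c.eq
  let α' : V ⧸ Q →* c.Quotient := QuotientGroup.lift Q (p.toRingHom.toMonoidHom.comp α) (by
    intro q hq
    have h1 : p (α q) = p 1 := (hp _ _).2 (by rw [sig_q α Q q hq, mul_one])
    show p (α q) = 1
    rw [h1, map_one])
  refine ⟨c.Quotient, inferInstance, inferInstance, α', p, ?_, ?_, ?_, ?_⟩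
  · exact h
  · exact c.mk'_surjective
  · intro a
    have h2 := hp a 0
    rw [map_zero, mul_zero] at h2
    exact h2
  · intro v
    rfl

end Pool.Agent.PSS.S5.H23
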